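import Pool.Agent.U497.RT.Sec
import Pool.Agent.H469R10.HO.Final

/-!
# The windows which contain primes (helper497)
-/

set_option autoImplicit false

open Finset

namespace Pool.Agent.U497.RT

open Pool.Agent.U497.AW

open Classical in
/-- the number of the windows of length `h ≤ log Y` which contain a prime has at least the right order of magnitude -/
theorem core : ∃ δ c : ℝ, 0 < δ ∧ δ < 1 ∧ 0 < c ∧ ∃ Y₀ : ℕ, ∀ Y N h : ℕ, Y₀ ≤ Y → (Y : ℝ) ^ (1 - δ) ≤ N → N ≤ Y → 1 ≤ h →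
    (h : ℝ) ≤ Real.log Y →
    c * (N * h / Real.log Y) ≤ (((Icc Y (Y + N)).filter (fun m => ∃ p : ℕ, p.Prime ∧ m < p ∧ p ≤ m + h)).card : ℝ) := by
  classical
  obtain ⟨δ, η, hδ, hδ1, hη, X₀, hX₀, hH⟩ := Pool.Agent.H469R10.HO.hoheisel
  obtain ⟨C, hC, N₀, hsec⟩ := sec
  have hd : 0 < 1 - δ := by linarith
  -- size conditions
  obtain ⟨Y₁, hY₁⟩ : ∃ Y₁ : ℕ, ∀ Y : ℕ, Y₁ ≤ Y → (N₀ + 3 : ℝ) ≤ (Y : ℝ) ^ (1 - δ) := by
    have h2 : Filter.Tendsto (fun H : ℕ => (H : ℝ) ^ (1 - δ)) Filter.atTop Filter.atTop :=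
      (tendsto_rpow_atTop hd).comp tendsto_natCast_atTop_atTop
    exact Filter.eventually_atTop.1 (h2.eventually_ge_atTop _)
  obtain ⟨Y₂, hY₂⟩ : ∃ Y₂ : ℕ, ∀ Y : ℕ, Y₂ ≤ Y → Real.log Y ^ 2 ≤ η / 2 * (Y : ℝ) ^ (1 - δ) := by
    have h2 := (isLittleO_log_rpow_rpow_atTop (s := 1 - δ) 2 hd).bound (show (0 : ℝ) < η / 2 by positivity)
    have h3 := (tendsto_natCast_atTop_atTop (R := ℝ)).eventually h2
    obtain ⟨Y₂, h4⟩ := Filter.eventually_atTop.1 h3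
    refine ⟨Y₂, fun Y hY => ?_⟩
    have h5 := h4 Y hY
    rw [Real.rpow_two, Real.norm_of_nonneg (sq_nonneg _), Real.norm_of_nonneg (Real.rpow_nonneg (Nat.cast_nonneg _) _)] at h5
    exact h5
  obtain ⟨c, hc⟩ : ∃ c : ℝ, c = (η / 2) ^ 2 / (C * (1 / (1 - δ)) * (1 + 1 / (1 - δ))) := ⟨_, rfl⟩
  have hc0 : 0 < c := by rw [hc]; positivity
  refine ⟨δ, c, hδ, hδ1, hc0, X₀ + Y₁ + Y₂ + 3, fun Y N h hY hYN hNY hh1 hhY => ?_⟩
  have hN3 : (N₀ + 3 : ℝ) ≤ N := (hY₁ Y (by omega)).trans hYN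
  have hN3' : N₀ + 3 ≤ N := by exact_mod_cast hN3
  have hlN : 0 < Real.log N := Real.log_pos (by exact_mod_cast (by omega : 1 < N))
  have hlY : 0 < Real.log Y := Real.log_pos (by exact_mod_cast (by omega : 1 < Y))
  have hlog : (1 - δ) * Real.log Y ≤ Real.log N := by
    rw [← Real.log_rpow (by exact_mod_cast (by omega : 0 < Y))]
    exact Real.log_le_log (Real.rpow_pos_of_pos (by exact_mod_cast (by omega : 0 < Y)) _) hYN
  obtain ⟨P, hP⟩ : ∃ P : Finset ℕ, P = (Ioc Y (Y + N)).filter Nat.Prime := ⟨_, rfl⟩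
  have hPc := hH Y N (by omega) hYN hNY
  rw [← hP] at hPc
  obtain ⟨a, ha⟩ : ∃ a : ℕ, a = ∑ n ∈ Icc Y (Y + N), Xc P h n := ⟨_, rfl⟩
  have h1 : h * P.card ≤ a + h * h := by
    rw [ha]
    exact sumX_ge P Y (Y + N) h (by rw [hP]; exact filter_subset _ _)
  have hhr : (1 : ℝ) ≤ h := by exact_mod_cast hh1
  have h2 : (h : ℝ) * (η / 2 * N / Real.log Y) ≤ a := by
    have h3 : (h : ℝ) * P.card ≤ a + h * h := by exact_mod_cast h1
    have h4 : (h : ℝ) * (η * N / Real.log Y) ≤ h * P.card := by gcongr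
    have h5 : (h : ℝ) ≤ η / 2 * N / Real.log Y := by
      rw [le_div_iff₀ hlY]
      calc (h : ℝ) * Real.log Y ≤ Real.log Y * Real.log Y := by gcongr
        _ = Real.log Y ^ 2 := by ring
        _ ≤ η / 2 * (Y : ℝ) ^ (1 - δ) := hY₂ Y (by omega)
        _ ≤ _ := by gcongr
    have h6 : (h : ℝ) * h ≤ h * (η / 2 * N / Real.log Y) := by gcongr
    have h7 : (h : ℝ) * (η * N / Real.log Y) = h * (η / 2 * N / Real.log Y) + h * (η / 2 * N / Real.log Y) := by ring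
    linarith
  obtain ⟨G, hG⟩ : ∃ G : Finset ℕ, G = (Icc Y (Y + N)).filter (fun m => ∃ p : ℕ, p.Prime ∧ m < p ∧ p ≤ m + h) := ⟨_, rfl⟩
  rw [← hG]
  have h3 : a = ∑ n ∈ G, Xc P h n := by
    rw [ha, hG]
    symm
    apply sum_filter_of_ne
    intro m hm hne
    unfold Xc at hne
    obtain ⟨p, hp⟩ := card_ne_zero.1 hne
    rw [mem_filter, hP, mem_filter] at hp
    exact ⟨p, hp.1.2, hp.2⟩
  have h4 : (a : ℝ) ^ 2 ≤ (G.card : ℝ) * ∑ n ∈ G, (Xc P h n : ℝ) ^ 2 := by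
    have h5 := sq_sum_le_card_mul_sum_sq (s := G) (f := fun n => (Xc P h n : ℝ))
    have h6 : (a : ℝ) = ∑ n ∈ G, (Xc P h n : ℝ) := by rw [h3]; push_cast; rfl
    rw [h6]
    exact h5
  have h5 : ∑ n ∈ G, (Xc P h n : ℝ) ^ 2 ≤ C * (1 / (1 - δ)) * (1 + 1 / (1 - δ)) * (h * N / Real.log Y) := by
    have h6 := hsec N (by omega) Y hNY h G
    rw [← hP] at h6
    have h7 : ∑ n ∈ G, (Xc P h n : ℝ) ^ 2 = ((∑ n ∈ G, Xc P h n * Xc P h n : ℕ) : ℝ) := by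
      push_cast
      apply sum_congr rfl
      intro n _
      ring
    rw [h7]
    refine h6.trans ?_
    have h8 : 1 / Real.log N ≤ 1 / (1 - δ) * (1 / Real.log Y) := by
      rw [one_div_mul_one_div]
      exact one_div_le_one_div_of_le (by positivity) hlog
    have h9 : (h : ℝ) / Real.log N ≤ 1 / (1 - δ) := by
      rw [div_le_div_iff₀ hlN hd]
      calc (h : ℝ) * (1 - δ) ≤ Real.log Y * (1 - δ) := by gcongr
        _ = (1 - δ) * Real.log Y := by ring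
        _ ≤ _ := by linarith
    have h10 : (h : ℝ) * N / Real.log N ≤ 1 / (1 - δ) * (h * N / Real.log Y) := by
      calc (h : ℝ) * N / Real.log N = h * N * (1 / Real.log N) := by ring
        _ ≤ h * N * (1 / (1 - δ) * (1 / Real.log Y)) := by gcongr
        _ = _ := by ring
    calc C * (h * N / Real.log N) * (1 + h / Real.log N) ≤
          C * (1 / (1 - δ) * (h * N / Real.log Y)) * (1 + 1 / (1 - δ)) := by gcongr
      _ = _ := by ring
  obtain ⟨x, hx⟩ : ∃ x : ℝ, x = h * N / Real.log Y := ⟨_, rfl⟩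
  have hx0 : 0 < x := by
    rw [hx]
    have : (0 : ℝ) < N := by linarith [(Nat.cast_nonneg N₀ : (0 : ℝ) ≤ N₀)]
    positivity
  obtain ⟨D, hD⟩ : ∃ D : ℝ, D = C * (1 / (1 - δ)) * (1 + 1 / (1 - δ)) := ⟨_, rfl⟩
  have hD0 : 0 < D := by rw [hD]; positivity
  rw [← hD, ← hx] at h5
  rw [← hD] at hc
  have h6 : (h : ℝ) * (η / 2 * N / Real.log Y) = η / 2 * x := by rw [hx]; ring
  rw [h6] at h2
  have h7 : (η / 2 * x) ^ 2 ≤ (G.card : ℝ) * (D * x) := by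
    calc (η / 2 * x) ^ 2 ≤ (a : ℝ) ^ 2 := by gcongr
      _ ≤ _ := h4
      _ ≤ _ := by gcongr
  have h8 : (N : ℝ) * h / Real.log Y = x := by rw [hx]; ring
  rw [h8, hc]
  have h9 : (η / 2) ^ 2 * x * x ≤ (G.card : ℝ) * D * x := by
    calc (η / 2) ^ 2 * x * x = (η / 2 * x) ^ 2 := by ring
      _ ≤ _ := h7
      _ = _ := by ring
  have h10 := le_of_mul_le_mul_right h9 hx0
  rw [div_mul_eq_mul_div, div_le_iff₀ hD0]
  exact h10

end Pool.Agent.U497.RT
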