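import Pool.Agent.U839.Disp.Pnt

/-!
# The prime number theorem in intervals of the length of their end points (helper497)
-/

set_option autoImplicit false

open Finset Filter

namespace Pool.Agent.U497.RT

open Pool.Agent.U839.Disp (pi2 pi2_eq lis_diff)

/-- the number of primes in an interval of length `X` between `X` and `4 X` -/
theorem pnt4 (ε : ℝ) (hε : 0 < ε) (hε1 : ε ≤ 1) : ∃ X₀ : ℕ, 3 ≤ X₀ ∧ ∀ X : ℕ, X₀ ≤ X → ∀ a N : ℕ, X ≤ a → a + N ≤ 4 * X →
    X ≤ N + 1 → N ≤ X →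
    (1 - ε) * (X / Real.log X) ≤ (((Ioc a (a + N)).filter Nat.Prime).card : ℝ) ∧
    (((Ioc a (a + N)).filter Nat.Prime).card : ℝ) ≤ (1 + ε) * (X / Real.log X) := by
  have h1 := Pool.Agent.R518.Drift.pnt_unif 1 (ε / 32) (by positivity)
  have h4 : Tendsto (fun X : ℕ => 4 * X) atTop atTop := tendsto_id.const_mul_atTop' (by norm_num)
  have h2 := h4.eventually h1
  have h3 : ∀ᶠ X : ℕ in atTop, 8 / ε ≤ Real.log (X : ℝ) :=
    (Real.tendsto_log_atTop.comp tendsto_natCast_atTop_atTop).eventually_ge_atTop _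
  have h5 : ∀ᶠ X : ℕ in atTop, 8 / ε + 2 ≤ (X : ℝ) := tendsto_natCast_atTop_atTop.eventually_ge_atTop _
  obtain ⟨X₀, hX₀⟩ := eventually_atTop.1 (h2.and (h3.and h5))
  refine ⟨X₀ + 3, by omega, fun X hX a N ha hb hN1 hN2 => ?_⟩
  obtain ⟨g1, g2, g3⟩ := hX₀ X (by omega)
  have hε8 : 8 ≤ 8 / ε := by
    rw [le_div_iff₀ hε]
    nlinarith
  have hX2 : (3 : ℝ) ≤ X := by exact_mod_cast (by omega : 3 ≤ X)
  obtain ⟨L, hL⟩ : ∃ L : ℝ, L = Real.log X := ⟨_, rfl⟩
  rw [← hL] at g2 ⊢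
  have hL0 : 0 < L := by linarith
  have hl4 : Real.log ((4 * X : ℕ) : ℝ) ≤ L + 2 := by
    push_cast
    rw [Real.log_mul (by norm_num) (by linarith), ← hL]
    have : Real.log 4 ≤ 2 := by
      rw [Real.log_le_iff_le_exp (by norm_num)]
      have h6 := Real.quadratic_le_exp_of_nonneg (show (0:ℝ) ≤ 2 by norm_num)
      linarith
    linarith
  have hl4' : L ≤ Real.log ((4 * X : ℕ) : ℝ) := by
    rw [hL]
    apply Real.log_le_log (by linarith)
    push_cast
    linarith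
  have hpc : ∀ y : ℕ, y ≤ 4 * X → |(Nat.primeCounting y : ℝ) - Pool.Agent.H442R2.EHI.lis y| ≤ ε / 8 * (X / L) := by
    intro y hy
    refine (g1 y ?_).trans ?_
    · rw [pow_one]
      have h6 : (y : ℝ) ≤ (4 * X : ℕ) := by exact_mod_cast hy
      have h7 : (0 : ℝ) ≤ (4 * X : ℕ) := Nat.cast_nonneg _
      nlinarith
    · rw [pow_one]
      calc ε / 32 * (((4 * X : ℕ) : ℝ) / Real.log ((4 * X : ℕ) : ℝ)) ≤ ε / 32 * (((4 * X : ℕ) : ℝ) / L) := by gcongr
        _ = _ := by push_cast; ring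
  have hcard := pi2_eq a (a + N) (by omega)
  unfold pi2 at hcard
  rw [hcard]
  have h6 := abs_le.1 (hpc (a + N) hb)
  have h7 := abs_le.1 (hpc a (by omega))
  obtain ⟨h8, h9⟩ := lis_diff a (a + N) (by omega) (by omega)
  have hNr : ((a + N : ℕ) : ℝ) - a = N := by push_cast; ring
  rw [hNr] at h8 h9
  have hNX : (N : ℝ) ≤ X := by exact_mod_cast hN2
  have hNX2 : (X : ℝ) - 1 ≤ N := by
    have : (X : ℝ) ≤ N + 1 := by exact_mod_cast hN1
    linarith
  have haX : L ≤ Real.log a := by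
    rw [hL]
    exact Real.log_le_log (by linarith) (by exact_mod_cast ha)
  have hbX : Real.log ((a + N : ℕ) : ℝ) ≤ L + 2 := by
    refine le_trans ?_ hl4
    exact Real.log_le_log (by exact_mod_cast (by omega : 0 < a + N)) (by exact_mod_cast hb)
  have hb0 : 0 < Real.log ((a + N : ℕ) : ℝ) := Real.log_pos (by exact_mod_cast (by omega : 1 < a + N))
  have hu : (N : ℝ) / Real.log a ≤ X / L := by gcongr
  have hl : (1 - ε / 2) * (X / L) ≤ N / Real.log ((a + N : ℕ) : ℝ) := by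
    have h10 : (N : ℝ) / (L + 2) ≤ N / Real.log ((a + N : ℕ) : ℝ) := by gcongr
    refine le_trans ?_ h10
    rw [mul_div_assoc', div_le_div_iff₀ hL0 (by linarith)]
    have h11 : 8 ≤ ε * L := by
      have := mul_le_mul_of_nonneg_left g2 hε.le
      rwa [mul_div_cancel₀ _ hε.ne'] at this
    have h12 : 8 ≤ ε * X := by
      have h13 : 8 / ε ≤ X := by linarith
      have := mul_le_mul_of_nonneg_left h13 hε.le
      rwa [mul_div_cancel₀ _ hε.ne'] at this
    -- (1 - ε/2) X (L + 2) ≤ (X - 1) L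
    have h14 : (1 - ε / 2) * X * (L + 2) ≤ (X - 1) * L := by
      nlinarith [mul_le_mul_of_nonneg_right h11 (show (0 : ℝ) ≤ X by linarith),
        mul_le_mul_of_nonneg_right h12 hL0.le]
    calc (1 - ε / 2) * X * (L + 2) ≤ (X - 1) * L := h14
      _ ≤ N * L := by gcongr
  have hXL : 0 < X / L := by positivity
  constructor
  · nlinarith
  · nlinarith

end Pool.Agent.U497.RT
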