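import Mathlib

/-!
# Lower tails of sums over random tuples; empty blocks of independent events (helper497)
-/

set_option autoImplicit false

open Finset

namespace Pool.Agent.U497.RT

lemma exp_quad {x : ℝ} (hx : 0 ≤ x) : Real.exp (-x) ≤ 1 - x + x ^ 2 / 2 := by
  have h := Real.exp_bound' (x := x)
  -- use the inequality 1 ≤ (1 - x + x^2/2) * exp x
  have h1 : 1 + x + x ^ 2 / 2 ≤ Real.exp x := Real.quadratic_le_exp_of_nonneg hx
  rw [Real.exp_neg, inv_le_comm₀ (Real.exp_pos x) (by nlinarith [sq_nonneg (x - 1)])]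
  refine le_trans ?_ h1
  rw [inv_le_iff_one_le_mul₀ (by nlinarith [sq_nonneg (x - 1)])]
  nlinarith [sq_nonneg (x ^ 2)]

open Classical in
/-- **lower tails**: `W ≥ 0` on `Icc 1 X`, mean `≥ w`, second moment `≤ C w ^ 2` -/
theorem lowtail (X K : ℕ) (W : ℕ → ℝ) (w C ε : ℝ) (hW : ∀ t, 0 ≤ W t) (hw : 0 < w) (hC : 0 < C) (hε : 0 < ε)
    (h1 : X * w ≤ ∑ t ∈ Icc 1 X, W t) (h2 : ∑ t ∈ Icc 1 X, W t ^ 2 ≤ C * w ^ 2 * X) :
    (((Fintype.piFinset (fun _ : Fin K => Icc 1 X)).filter (fun t => ∑ i, W (t i) < (1 - ε) * (K * w))).card : ℝ) ≤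
      (X : ℝ) ^ K * Real.exp (-(K * (ε ^ 2 / (2 * C)))) := by
  obtain ⟨s, hs⟩ : ∃ s : ℝ, s = ε / (C * w) := ⟨_, rfl⟩
  have hs0 : 0 < s := by rw [hs]; positivity
  obtain ⟨Bd, hBd⟩ : ∃ Bd : Finset (Fin K → ℕ), Bd = (Fintype.piFinset (fun _ : Fin K => Icc 1 X)).filter
    (fun t => ∑ i, W (t i) < (1 - ε) * (K * w)) := ⟨_, rfl⟩
  rw [← hBd]
  have h3 : ∑ t ∈ Icc 1 X, Real.exp (-(s * W t)) ≤ X * Real.exp (-(s * w) + C * s ^ 2 * w ^ 2 / 2) := by
    calc ∑ t ∈ Icc 1 X, Real.exp (-(s * W t)) ≤ ∑ t ∈ Icc 1 X, (1 - s * W t + (s * W t) ^ 2 / 2) :=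
          sum_le_sum fun t _ => exp_quad (mul_nonneg hs0.le (hW t))
      _ = X - s * ∑ t ∈ Icc 1 X, W t + s ^ 2 / 2 * ∑ t ∈ Icc 1 X, W t ^ 2 := by
          rw [sum_add_distrib, sum_sub_distrib, sum_const, Nat.card_Icc, mul_sum, mul_sum, nsmul_eq_mul, mul_one]
          rw [Nat.add_sub_cancel]
          congr 1
          apply sum_congr rfl
          intro t _
          ring
      _ ≤ X - s * (X * w) + s ^ 2 / 2 * (C * w ^ 2 * X) := by gcongr
      _ = X * (-(s * w) + C * s ^ 2 * w ^ 2 / 2 + 1) := by ring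
      _ ≤ _ := mul_le_mul_of_nonneg_left (Real.add_one_le_exp _) (Nat.cast_nonneg _)
  have h4 : ∑ t ∈ Fintype.piFinset (fun _ : Fin K => Icc 1 X), Real.exp (-(s * ∑ i, W (t i))) =
      (∑ t ∈ Icc 1 X, Real.exp (-(s * W t))) ^ K := by
    have h5 := (Finset.prod_univ_sum (fun _ : Fin K => Icc 1 X) (fun _ x => Real.exp (-(s * W x)))).symm
    rw [prod_const, card_univ, Fintype.card_fin] at h5
    rw [← h5]
    apply sum_congr rfl
    intro t _
    rw [← Real.exp_sum]
    congr 1
    rw [mul_sum, sum_neg_distrib]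
  have h5 : (Bd.card : ℝ) * Real.exp (-(s * ((1 - ε) * (K * w)))) ≤
      ∑ t ∈ Fintype.piFinset (fun _ : Fin K => Icc 1 X), Real.exp (-(s * ∑ i, W (t i))) := by
    calc (Bd.card : ℝ) * Real.exp (-(s * ((1 - ε) * (K * w)))) = ∑ t ∈ Bd, Real.exp (-(s * ((1 - ε) * (K * w)))) := by
          rw [sum_const, nsmul_eq_mul]
      _ ≤ ∑ t ∈ Bd, Real.exp (-(s * ∑ i, W (t i))) := by
          apply sum_le_sum
          intro t ht
          rw [hBd, mem_filter] at ht
          apply Real.exp_le_exp.2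
          have := mul_le_mul_of_nonneg_left ht.2.le hs0.le
          linarith
      _ ≤ _ := by
          apply sum_le_sum_of_subset_of_nonneg
          · rw [hBd]
            exact filter_subset _ _
          · intro t _ _
            exact (Real.exp_pos _).le
  rw [h4] at h5
  have h6 : (∑ t ∈ Icc 1 X, Real.exp (-(s * W t))) ^ K ≤ (X * Real.exp (-(s * w) + C * s ^ 2 * w ^ 2 / 2)) ^ K := by
    apply pow_le_pow_left₀ _ h3
    exact sum_nonneg fun t _ => (Real.exp_pos _).le
  rw [mul_pow, ← Real.exp_nat_mul] at h6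
  have h7 := h5.trans h6
  rw [← le_div_iff₀ (Real.exp_pos _), mul_div_assoc, ← Real.exp_sub] at h7
  refine h7.trans (le_of_eq ?_)
  congr 2
  rw [hs]
  field_simp
  ring

/-- the sum of the exponentials is at least what it is for equal terms -/
lemma jensen (J : ℕ) (x : ℕ → ℝ) (a : ℝ) (h : ∑ j ∈ range J, x j ≤ J * a) : J * Real.exp (-a) ≤ ∑ j ∈ range J, Real.exp (-x j) := by
  have h1 : ∀ j ∈ range J, Real.exp (-a) * (1 + (a - x j)) ≤ Real.exp (-x j) := by
    intro j _
    have h2 := Real.add_one_le_exp (a - x j)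
    calc Real.exp (-a) * (1 + (a - x j)) ≤ Real.exp (-a) * Real.exp (a - x j) := by
          apply mul_le_mul_of_nonneg_left _ (Real.exp_pos _).le
          linarith
      _ = _ := by rw [← Real.exp_add]; congr 1; ring
  refine le_trans ?_ (sum_le_sum h1)
  rw [← mul_sum, sum_add_distrib, sum_sub_distrib, sum_const, sum_const, card_range, nsmul_eq_mul, nsmul_eq_mul, mul_one,
    mul_comm]
  apply mul_le_mul_of_nonneg_left _ (Real.exp_pos _).le
  linarith

open MeasureTheory ProbabilityTheory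

variable {Ω ι : Type*} [MeasurableSpace Ω] {μ : Measure Ω}

lemma compl_indep' {E : ι → Set Ω} (hE : iIndepSet E μ) : iIndepSet (fun i => (E i)ᶜ) μ := by
  rw [iIndepSet_iff_iIndep] at *
  have h : (fun i => MeasurableSpace.generateFrom {(E i)ᶜ}) = fun i => MeasurableSpace.generateFrom {E i} := by
    funext i
    apply le_antisymm
    · apply MeasurableSpace.generateFrom_le
      intro t ht
      rw [Set.mem_singleton_iff.1 ht]
      exact (MeasurableSpace.measurableSet_generateFrom (Set.mem_singleton _)).compl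
    · apply MeasurableSpace.generateFrom_le
      intro t ht
      rw [Set.mem_singleton_iff.1 ht]
      have : MeasurableSet[MeasurableSpace.generateFrom {(E i)ᶜ}] ((E i)ᶜ)ᶜ :=
        (MeasurableSpace.measurableSet_generateFrom (Set.mem_singleton _)).compl
      rwa [compl_compl] at this
  rw [h]
  exact hE

/-- the probability that none of the events of a finite set occurs -/
lemma none_prob {E : ι → Set Ω} (hE : iIndepSet E μ) [IsProbabilityMeasure μ] (hm : ∀ i, MeasurableSet (E i)) (q : ℝ)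
    (hq : ∀ i, μ.real (E i) = q) (F : Finset ι) : μ.real (⋂ i ∈ F, (E i)ᶜ) = (1 - q) ^ F.card := by
  have h1 := (compl_indep' hE).meas_biInter F
  simp only [measureReal_def]
  rw [h1, ENNReal.toReal_prod]
  rw [← prod_const]
  apply prod_congr rfl
  intro i _
  have h2 := probReal_compl_eq_one_sub (μ := μ) (hm i)
  rw [measureReal_def] at h2
  rw [h2, hq i]

open Classical in
/-- the probability that an event occurs in each of the disjoint blocks -/
lemma all_prob {E : ι → Set Ω} (hE : iIndepSet E μ) [IsProbabilityMeasure μ] (hm : ∀ i, MeasurableSet (E i)) (q : ℝ)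
    (hq : ∀ i, μ.real (E i) = q) (F : ℕ → Finset ι) (hF : ∀ j k, j ≠ k → Disjoint (F j) (F k)) (J : ℕ) :
    μ.real (⋂ j ∈ range J, (⋂ i ∈ F j, (E i)ᶜ)ᶜ) = ∏ j ∈ range J, (1 - (1 - q) ^ (F j).card) := by
  have hN : iIndepSet (fun j => ⋂ i ∈ F j, (E i)ᶜ) μ := by
    rw [iIndepSet_iff_meas_biInter (fun j => Finset.measurableSet_biInter _ (fun i _ => (hm i).compl))]
    intro s
    have h1 : (⋂ j ∈ s, ⋂ i ∈ F j, (E i)ᶜ) = ⋂ i ∈ s.biUnion F, (E i)ᶜ := by
      ext ω
      simp only [Set.mem_iInter, mem_biUnion]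
      constructor
      · rintro h i ⟨j, hj, hi⟩
        exact h j hj i hi
      · intro h j hj i hi
        exact h i ⟨j, hj, hi⟩
    rw [h1, (compl_indep' hE).meas_biInter, prod_biUnion (fun j _ k _ hjk => hF j k hjk)]
    apply prod_congr rfl
    intro j _
    rw [(compl_indep' hE).meas_biInter]
  have h2 := (compl_indep' hN).meas_biInter (range J)
  simp only [measureReal_def]
  rw [h2, ENNReal.toReal_prod]
  apply prod_congr rfl
  intro j _
  have h3 := probReal_compl_eq_one_sub (μ := μ) (s := ⋂ i ∈ F j, (E i)ᶜ)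
    (Finset.measurableSet_biInter _ (fun i _ => (hm i).compl))
  rw [measureReal_def] at h3
  rw [h3, none_prob hE hm q hq]

end Pool.Agent.U497.RT
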