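import Pool.Agent.U497.RT.Sec
import Pool.Agent.U497.RT.Tail
import Pool.Agent.U497.RT.Pnt4

/-!
# The numbers of the elements of the translates in windows (helper497)
-/

set_option autoImplicit false

open Finset

namespace Pool.Agent.U497.RT

open Pool.Agent.U497.AW

open Classical in
/-- the pairs `(i, p)`, `p` prime, with `p + t i` in the window `(n, n + h]` -/
noncomputable def blk {K : ℕ} (t : Fin K → ℕ) (n h : ℕ) : Finset (Fin K × ℕ) :=
  (univ ×ˢ Icc 1 (n + h)).filter (fun x => x.2.Prime ∧ n < x.2 + t x.1 ∧ x.2 + t x.1 ≤ n + h)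

lemma mem_blk {K : ℕ} {t : Fin K → ℕ} {n h : ℕ} {x : Fin K × ℕ} :
    x ∈ blk t n h ↔ x.2.Prime ∧ n < x.2 + t x.1 ∧ x.2 + t x.1 ≤ n + h := by
  unfold blk
  rw [mem_filter, mem_product, mem_Icc]
  constructor
  · exact fun hx => hx.2
  · exact fun hx => ⟨⟨mem_univ _, hx.1.pos, by omega⟩, hx⟩

/-- the number of the pairs is the sum over the translates -/
lemma sum_le_blk {K : ℕ} (t : Fin K → ℕ) (n h : ℕ) (P : Finset ℕ) (hP : ∀ p ∈ P, p.Prime) (ht : ∀ i, t i ≤ n) :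
    ∑ i, (Xc P h (n - t i) : ℝ) ≤ (blk t n h).card := by
  classical
  have h1 : ∑ i, Xc P h (n - t i) ≤ (blk t n h).card := by
    have h2 : (univ : Finset (Fin K)).sigma (fun i => P.filter (fun s => n - t i < s ∧ s ≤ n - t i + h)) =
        (univ : Finset (Fin K)).sigma (fun i => P.filter (fun s => n - t i < s ∧ s ≤ n - t i + h)) := rfl
    have h3 : ∑ i, Xc P h (n - t i) =
        ((univ : Finset (Fin K)).sigma (fun i => P.filter (fun s => n - t i < s ∧ s ≤ n - t i + h))).card := by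
      rw [card_sigma]
      rfl
    rw [h3]
    apply card_le_card_of_injOn (fun x => (x.1, x.2))
    · rintro ⟨i, p⟩ hx
      rw [mem_coe, mem_sigma, mem_filter] at hx
      show (i, p) ∈ _
      rw [mem_coe, mem_blk]
      have := ht i
      obtain ⟨-, hp, h5, h6⟩ := hx
      dsimp only at hp h5 h6 ⊢
      exact ⟨hP p hp, by omega, by omega⟩
    · rintro ⟨i, p⟩ _ ⟨j, q⟩ _ he
      simp only [Prod.mk.injEq] at he
      obtain ⟨rfl, rfl⟩ := he
      rfl
  exact_mod_cast h1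

open Classical in
/-- for all but few tuples all windows contain about the expected number or more -/
theorem lowcount (ε : ℝ) (hε : 0 < ε) (hε1 : ε ≤ 1) : ∃ C : ℝ, 0 < C ∧ ∃ X₀ : ℕ, 3 ≤ X₀ ∧ ∀ X K h : ℕ, X₀ ≤ X →
    C * Real.log X ≤ K → Real.log X ≤ h → (h : ℝ) ≤ 10 * Real.log X ^ 2 →
    (((Fintype.piFinset (fun _ : Fin K => Icc 1 X)).filter (fun t => ∃ n : ℕ, 3 * X ≤ n ∧ n ≤ 4 * X ∧
      ((blk t n h).card : ℝ) < (1 - ε) * (K * (h / Real.log X)))).card : ℝ) ≤ (X : ℝ) ^ K / X := by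
  obtain ⟨C₀, hC₀, N₀, hsec⟩ := sec
  obtain ⟨X₁, hX₁3, hpnt⟩ := pnt4 (ε / 4) (by positivity) (by linarith)
  obtain ⟨C₁, hC₁⟩ : ∃ C₁ : ℝ, C₁ = 24 * C₀ := ⟨_, rfl⟩
  have hC₁0 : 0 < C₁ := by rw [hC₁]; positivity
  obtain ⟨c, hc⟩ : ∃ c : ℝ, c = (ε / 2) ^ 2 / (2 * C₁) := ⟨_, rfl⟩
  have hc0 : 0 < c := by rw [hc]; positivity
  obtain ⟨X₂, hX₂⟩ : ∃ X₂ : ℕ, ∀ X : ℕ, X₂ ≤ X → Real.log X ^ 3 ≤ ε / 40 * X := by
    have h2 := (isLittleO_log_rpow_rpow_atTop (s := 1) 3 one_pos).bound (show (0 : ℝ) < ε / 40 by positivity)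
    have h3 := (tendsto_natCast_atTop_atTop (R := ℝ)).eventually h2
    obtain ⟨X₂, h4⟩ := Filter.eventually_atTop.1 h3
    refine ⟨X₂ + 1, fun X hX => ?_⟩
    have h5 := h4 X (by omega)
    have h6 : 0 ≤ Real.log (X : ℝ) := Real.log_natCast_nonneg X
    rw [Real.rpow_one, Real.norm_of_nonneg (Real.rpow_nonneg h6 _), Real.norm_of_nonneg (Nat.cast_nonneg _)] at h5
    calc Real.log (X : ℝ) ^ 3 = Real.log (X : ℝ) ^ (3 : ℝ) := by
          rw [← Real.rpow_natCast]
          norm_num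
      _ ≤ _ := h5
  refine ⟨3 / c, by positivity, X₁ + X₂ + N₀ + 9, by omega, fun X K h hX hK hh1 hh2 => ?_⟩
  have hX9 : (9 : ℝ) ≤ X := by exact_mod_cast (by omega : 9 ≤ X)
  obtain ⟨L, hL⟩ : ∃ L : ℝ, L = Real.log X := ⟨_, rfl⟩
  have hL3 := hX₂ X (by omega)
  rw [← hL] at hK hh1 hh2 hL3 ⊢
  have hL1 : 1 < L := by
    rw [hL, Real.lt_log_iff_exp_lt (by linarith)]
    have := Real.exp_one_lt_d9
    linarith
  have hL0 : 0 < L := by linarith
  have hhL : 0 < (h : ℝ) / L := by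
    have : (0 : ℝ) < h := by linarith
    positivity
  obtain ⟨w, hw⟩ : ∃ w : ℝ, w = (1 - ε / 2) * (h / L) := ⟨_, rfl⟩
  have hw0 : 0 < w := by
    rw [hw]
    have : 0 < 1 - ε / 2 := by linarith
    positivity
  -- one window
  have hone : ∀ n : ℕ, 3 * X ≤ n → n ≤ 4 * X →
      (((Fintype.piFinset (fun _ : Fin K => Icc 1 X)).filter (fun t =>
        ((blk t n h).card : ℝ) < (1 - ε) * (K * (h / L)))).card : ℝ) ≤ (X : ℝ) ^ K * Real.exp (-(K * c)) := by
    intro n hn1 hn2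
    obtain ⟨P, hP⟩ : ∃ P : Finset ℕ, P = (Ioc (n - X) (n - X + (X - 1))).filter Nat.Prime := ⟨_, rfl⟩
    have hsum : ∀ f : ℕ → ℝ, ∑ t ∈ Icc 1 X, f (n - t) = ∑ m ∈ Icc (n - X) (n - X + (X - 1)), f m := by
      intro f
      apply sum_nbij' (fun t => n - t) (fun m => n - m)
      · intro t ht
        rw [mem_Icc] at ht ⊢
        omega
      · intro m hm
        rw [mem_Icc] at hm ⊢
        omega
      · intro t ht
        rw [mem_Icc] at ht
        show n - (n - t) = t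
        omega
      · intro m hm
        rw [mem_Icc] at hm
        show n - (n - m) = m
        omega
      · intro t _
        rfl
    have hS1 : X * w ≤ ∑ t ∈ Icc 1 X, (Xc P h (n - t) : ℝ) := by
      rw [hsum (fun m => (Xc P h m : ℝ))]
      have h1 := sumX_ge P (n - X) (n - X + (X - 1)) h (by rw [hP]; exact filter_subset _ _)
      have h2 : (h : ℝ) * P.card ≤ ∑ m ∈ Icc (n - X) (n - X + (X - 1)), (Xc P h m : ℝ) + h * h := by exact_mod_cast h1
      have h3 := (hpnt X (by omega) (n - X) (X - 1) (by omega) (by omega) (by omega) (by omega)).1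
      rw [← hP, ← hL] at h3
      have h4 : (h : ℝ) * ((1 - ε / 4) * (X / L)) ≤ h * P.card := by gcongr
      have h5 : (h : ℝ) * h ≤ ε / 4 * (h / L) * X := by
        have h6 : (h : ℝ) * L ≤ ε / 4 * X := by
          calc (h : ℝ) * L ≤ 10 * L ^ 2 * L := by gcongr
            _ = 10 * L ^ 3 := by ring
            _ ≤ 10 * (ε / 40 * X) := by gcongr
            _ = _ := by ring
        calc (h : ℝ) * h = (h / L) * (h * L) := by field_simp
          _ ≤ (h / L) * (ε / 4 * X) := by gcongr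
          _ = _ := by ring
      have h6 : X * w = (h : ℝ) * ((1 - ε / 4) * (X / L)) - ε / 4 * (h / L) * X := by
        rw [hw]
        ring
      linarith
    have hS2 : ∑ t ∈ Icc 1 X, (Xc P h (n - t) : ℝ) ^ 2 ≤ C₁ * w ^ 2 * X := by
      rw [hsum (fun m => (Xc P h m : ℝ) ^ 2)]
      have h1 := hsec (X - 1) (by omega) (n - X) (by omega) h (Icc (n - X) (n - X + (X - 1)))
      rw [← hP] at h1
      have h2 : ∑ m ∈ Icc (n - X) (n - X + (X - 1)), (Xc P h m : ℝ) ^ 2 =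
          ((∑ m ∈ Icc (n - X) (n - X + (X - 1)), Xc P h m * Xc P h m : ℕ) : ℝ) := by
        push_cast
        apply sum_congr rfl
        intro m _
        ring
      rw [h2]
      refine h1.trans ?_
      have h3 : ((X - 1 : ℕ) : ℝ) ≤ X := by exact_mod_cast Nat.sub_le X 1
      have h4 : L / 2 ≤ Real.log ((X - 1 : ℕ) : ℝ) := by
        have h5 : (X : ℝ) ≤ ((X - 1 : ℕ) : ℝ) ^ 2 := by
          rw [Nat.cast_sub (by omega)]
          push_cast
          nlinarith
        have h6 : L ≤ 2 * Real.log ((X - 1 : ℕ) : ℝ) := by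
          rw [hL]
          calc Real.log (X : ℝ) ≤ Real.log (((X - 1 : ℕ) : ℝ) ^ 2) := Real.log_le_log (by linarith) h5
            _ = _ := by rw [Real.log_pow]; push_cast; ring
        linarith
      have h5 : (1 : ℝ) / Real.log ((X - 1 : ℕ) : ℝ) ≤ 2 / L := by
        rw [div_le_div_iff₀ (by linarith) hL0]
        linarith
      have h6 : (h : ℝ) * ((X - 1 : ℕ) : ℝ) / Real.log ((X - 1 : ℕ) : ℝ) ≤ 2 * (h / L) * X := by
        calc (h : ℝ) * ((X - 1 : ℕ) : ℝ) / Real.log ((X - 1 : ℕ) : ℝ) =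
              h * ((X - 1 : ℕ) : ℝ) * (1 / Real.log ((X - 1 : ℕ) : ℝ)) := by ring
          _ ≤ h * X * (2 / L) := by gcongr
          _ = _ := by ring
      have h7 : 1 + (h : ℝ) / Real.log ((X - 1 : ℕ) : ℝ) ≤ 3 * (h / L) := by
        have h8 : (h : ℝ) / Real.log ((X - 1 : ℕ) : ℝ) ≤ 2 * (h / L) := by
          calc (h : ℝ) / Real.log ((X - 1 : ℕ) : ℝ) = h * (1 / Real.log ((X - 1 : ℕ) : ℝ)) := by ring
            _ ≤ h * (2 / L) := by gcongr
            _ = _ := by ring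
        have h9 : 1 ≤ (h : ℝ) / L := by
          rw [le_div_iff₀ hL0]
          linarith
        linarith
      have h8 : (h : ℝ) / L ≤ 2 * w := by
        rw [hw]
        have : (1 / 2 : ℝ) ≤ 1 - ε / 2 := by linarith
        nlinarith
      have h9 : 0 ≤ (h : ℝ) / Real.log ((X - 1 : ℕ) : ℝ) := by
        have : 0 ≤ Real.log ((X - 1 : ℕ) : ℝ) := Real.log_natCast_nonneg _
        positivity
      calc C₀ * (h * ((X - 1 : ℕ) : ℝ) / Real.log ((X - 1 : ℕ) : ℝ)) * (1 + h / Real.log ((X - 1 : ℕ) : ℝ)) ≤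
            C₀ * (2 * (h / L) * X) * (3 * (h / L)) := by gcongr
        _ = 6 * C₀ * (h / L) ^ 2 * X := by ring
        _ ≤ 6 * C₀ * (2 * w) ^ 2 * X := by gcongr
        _ = _ := by rw [hC₁]; ring
    have h1 := lowtail X K (fun t => (Xc P h (n - t) : ℝ)) w C₁ (ε / 2) (fun t => Nat.cast_nonneg _) hw0 hC₁0 (by positivity)
      hS1 hS2
    rw [← hc] at h1
    refine le_trans (Nat.cast_le.2 (card_le_card ?_)) h1
    intro t ht
    rw [mem_filter] at ht ⊢
    refine ⟨ht.1, ?_⟩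
    have h2 := sum_le_blk t n h P (fun p hp => by rw [hP, mem_filter] at hp; exact hp.2) (fun i => by
      have := mem_Icc.1 (Fintype.mem_piFinset.1 ht.1 i)
      omega)
    refine lt_of_le_of_lt h2 (lt_of_lt_of_le ht.2 ?_)
    rw [hw]
    have h3 : 0 ≤ (K : ℝ) * (h / L) := by positivity
    nlinarith [mul_nonneg (sq_nonneg ε) h3]
  -- all windows
  have hsub : (Fintype.piFinset (fun _ : Fin K => Icc 1 X)).filter (fun t => ∃ n : ℕ, 3 * X ≤ n ∧ n ≤ 4 * X ∧
      ((blk t n h).card : ℝ) < (1 - ε) * (K * (h / L))) ⊆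
      (Icc (3 * X) (4 * X)).biUnion (fun n => (Fintype.piFinset (fun _ : Fin K => Icc 1 X)).filter (fun t =>
        ((blk t n h).card : ℝ) < (1 - ε) * (K * (h / L)))) := by
    intro t ht
    rw [mem_filter] at ht
    obtain ⟨ht1, n, hn1, hn2, hn3⟩ := ht
    rw [mem_biUnion]
    exact ⟨n, mem_Icc.2 ⟨hn1, hn2⟩, mem_filter.2 ⟨ht1, hn3⟩⟩
  have hexp : Real.exp (-(K * c)) ≤ (X : ℝ) ^ (-(3 : ℝ)) := by
    rw [Real.rpow_def_of_pos (by linarith), ← hL]
    apply Real.exp_le_exp.2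
    have h1 : 3 * L ≤ K * c := by
      calc 3 * L = (3 / c * L) * c := by field_simp
        _ ≤ K * c := by gcongr
    linarith
  calc _ ≤ (((Icc (3 * X) (4 * X)).biUnion (fun n => (Fintype.piFinset (fun _ : Fin K => Icc 1 X)).filter (fun t =>
        ((blk t n h).card : ℝ) < (1 - ε) * (K * (h / L))))).card : ℝ) := by exact_mod_cast card_le_card hsub
    _ ≤ ∑ n ∈ Icc (3 * X) (4 * X), (((Fintype.piFinset (fun _ : Fin K => Icc 1 X)).filter (fun t =>
        ((blk t n h).card : ℝ) < (1 - ε) * (K * (h / L)))).card : ℝ) := by exact_mod_cast card_biUnion_le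
    _ ≤ ∑ n ∈ Icc (3 * X) (4 * X), (X : ℝ) ^ K * Real.exp (-(K * c)) :=
        sum_le_sum fun n hn => hone n (mem_Icc.1 hn).1 (mem_Icc.1 hn).2
    _ = (X + 1) * ((X : ℝ) ^ K * Real.exp (-(K * c))) := by
        rw [sum_const, Nat.card_Icc, nsmul_eq_mul]
        congr 1
        have : 4 * X + 1 - 3 * X = X + 1 := by omega
        rw [this]
        push_cast
        ring
    _ ≤ (X * X) * ((X : ℝ) ^ K * (X : ℝ) ^ (-(3 : ℝ))) := by
        gcongr
        nlinarith
    _ = _ := by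
        have h1 : (X : ℝ) ^ (-(3 : ℝ)) = ((X : ℝ) ^ 3)⁻¹ := by
          rw [Real.rpow_neg (by linarith)]
          norm_cast
        rw [h1]
        field_simp

end Pool.Agent.U497.RT
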