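import Pool.Agent.U497.RT.Good

/-!
# The largest gap of the thinned union of random translates of the primes (helper497)
-/

set_option autoImplicit false

open Finset

namespace Pool.Agent.U497.RT

lemma blk_disj {K : ℕ} (t : Fin K → ℕ) (a h : ℕ) (j k : ℕ) (hjk : j ≠ k) : Disjoint (blk t (a + j * h) h) (blk t (a + k * h) h) := by
  rw [disjoint_left]
  intro x hx hx'
  rw [mem_blk] at hx hx'
  rcases Nat.lt_or_gt_of_ne hjk with h1 | h1
  · have h2 : (j + 1) * h ≤ k * h := Nat.mul_le_mul_right _ h1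
    have h3 : (j + 1) * h = j * h + h := by ring
    omega
  · have h2 : (k + 1) * h ≤ j * h := Nat.mul_le_mul_right _ h1
    have h3 : (k + 1) * h = k * h + h := by ring
    omega

/-- the number of the elements in disjoint windows, at most the expected number -/
theorem upcount (ε : ℝ) (hε : 0 < ε) (hε1 : ε ≤ 1) : ∃ X₀ : ℕ, ∀ (X K h J : ℕ) (t : Fin K → ℕ), X₀ ≤ X →
    (∀ i, 1 ≤ t i ∧ t i ≤ X) → J * h ≤ X →
    ∑ j ∈ range J, ((blk t (3 * X + j * h) h).card : ℝ) ≤ K * ((1 + ε) * (X / Real.log X)) := by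
  classical
  obtain ⟨X₁, hX₁3, hpnt⟩ := pnt4 ε hε hε1
  refine ⟨X₁, fun X K h J t hX ht hJ => ?_⟩
  have hdis : ∀ j ∈ range J, ∀ k ∈ range J, j ≠ k → Disjoint (blk t (3 * X + j * h) h) (blk t (3 * X + k * h) h) :=
    fun j _ k _ hjk => blk_disj t (3 * X) h j k hjk
  have h1 : ∑ j ∈ range J, (blk t (3 * X + j * h) h).card ≤
      ∑ i : Fin K, ((Ioc (3 * X - t i) (3 * X - t i + X)).filter Nat.Prime).card := by
    rw [← card_biUnion hdis, ← card_sigma]
    apply card_le_card_of_injOn (fun x => ⟨x.1, x.2⟩)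
    · rintro ⟨i, p⟩ hx
      rw [mem_coe, mem_biUnion] at hx
      obtain ⟨j, hj, hx⟩ := hx
      rw [mem_blk] at hx
      rw [mem_range] at hj
      have h2 : (j + 1) * h ≤ J * h := Nat.mul_le_mul_right _ hj
      have h3 : (j + 1) * h = j * h + h := by ring
      have h4 := ht i
      dsimp only at hx
      show (⟨i, p⟩ : (_ : Fin K) × ℕ) ∈ _
      rw [mem_coe, mem_sigma, mem_filter, mem_Ioc]
      exact ⟨mem_univ _, ⟨by dsimp only; omega, by dsimp only; omega⟩, hx.1⟩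
    · rintro ⟨i, p⟩ _ ⟨j, q⟩ _ he
      simp only [Sigma.mk.injEq, heq_eq_eq] at he
      obtain ⟨rfl, rfl⟩ := he
      rfl
  have h2 : ∀ i ∈ (univ : Finset (Fin K)), (((Ioc (3 * X - t i) (3 * X - t i + X)).filter Nat.Prime).card : ℝ) ≤
      (1 + ε) * (X / Real.log X) := by
    intro i _
    have h4 := ht i
    exact (hpnt X hX (3 * X - t i) X (by omega) (by omega) (by omega) le_rfl).2
  calc ∑ j ∈ range J, ((blk t (3 * X + j * h) h).card : ℝ) ≤
        ∑ i : Fin K, (((Ioc (3 * X - t i) (3 * X - t i + X)).filter Nat.Prime).card : ℝ) := by exact_mod_cast h1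
    _ ≤ ∑ _i : Fin K, (1 + ε) * (X / Real.log X) := sum_le_sum h2
    _ = _ := by rw [sum_const, card_univ, Fintype.card_fin, nsmul_eq_mul]

open MeasureTheory ProbabilityTheory

/-- the windows of length `h ≥ (1 + ε) log ^ 2 X` -/
theorem upprob (ε : ℝ) (hε : 0 < ε) (hε1 : ε ≤ 1) : ∃ X₀ : ℕ, ∀ (X K h : ℕ) (t : Fin K → ℕ), X₀ ≤ X → 1 ≤ K →
    (1 + ε) * Real.log X ^ 2 ≤ h →
    (∀ n : ℕ, 3 * X ≤ n → n ≤ 4 * X → (1 - ε / 4) * (K * (h / Real.log X)) ≤ (blk t n h).card) →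
    ∀ {Ω : Type} [MeasurableSpace Ω] (μ : Measure Ω) [IsProbabilityMeasure μ] (E : Fin K × ℕ → Set Ω),
      (∀ i, MeasurableSet (E i)) → iIndepSet E μ → (∀ i, μ.real (E i) = 1 / K) →
      μ.real {ω | ∃ n : ℕ, 3 * X ≤ n ∧ n ≤ 4 * X ∧ ∀ x ∈ blk t n h, ω ∉ E x} ≤ (X : ℝ) ^ (-(ε / 8)) := by
  classical
  obtain ⟨X₁, hX₁⟩ : ∃ X₁ : ℕ, ∀ X : ℕ, X₁ ≤ X → (2 : ℝ) ≤ (X : ℝ) ^ (ε / 4) := by
    have h2 : Filter.Tendsto (fun H : ℕ => (H : ℝ) ^ (ε / 4)) Filter.atTop Filter.atTop :=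
      (tendsto_rpow_atTop (by positivity)).comp tendsto_natCast_atTop_atTop
    exact Filter.eventually_atTop.1 (h2.eventually_ge_atTop _)
  refine ⟨X₁ + 9, fun X K h t hX hK hh hgood Ω _ μ _ E hm hE hq => ?_⟩
  have hX9 : (9 : ℝ) ≤ X := by exact_mod_cast (by omega : 9 ≤ X)
  obtain ⟨L, hL⟩ : ∃ L : ℝ, L = Real.log X := ⟨_, rfl⟩
  rw [← hL] at hh
  have hL1 : 1 < L := by
    rw [hL, Real.lt_log_iff_exp_lt (by linarith)]
    have := Real.exp_one_lt_d9
    linarith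
  have hKr : (1 : ℝ) ≤ K := by exact_mod_cast hK
  have h1K : (0 : ℝ) ≤ 1 - 1 / K := by
    rw [sub_nonneg, div_le_one (by linarith)]
    exact hKr
  have hsub : {ω | ∃ n : ℕ, 3 * X ≤ n ∧ n ≤ 4 * X ∧ ∀ x ∈ blk t n h, ω ∉ E x} ⊆
      ⋃ n ∈ Icc (3 * X) (4 * X), ⋂ i ∈ blk t n h, (E i)ᶜ := by
    rintro ω ⟨n, hn1, hn2, hn3⟩
    simp only [Set.mem_iUnion, Set.mem_iInter]
    exact ⟨n, mem_Icc.2 ⟨hn1, hn2⟩, fun i hi => hn3 i hi⟩
  have hone : ∀ n ∈ Icc (3 * X) (4 * X), μ.real (⋂ i ∈ blk t n h, (E i)ᶜ) ≤ (X : ℝ) ^ (-(1 + ε / 2)) := by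
    intro n hn
    rw [mem_Icc] at hn
    rw [none_prob hE hm (1 / K) hq]
    have h1 := hgood n hn.1 hn.2
    rw [← hL] at h1
    calc (1 - 1 / (K : ℝ)) ^ (blk t n h).card ≤ (Real.exp (-(1 / (K : ℝ)))) ^ (blk t n h).card := by
          apply pow_le_pow_left₀ h1K
          have := Real.add_one_le_exp (-(1 / (K : ℝ)))
          linarith
      _ = Real.exp (-((blk t n h).card / K)) := by
          rw [← Real.exp_nat_mul]
          congr 1
          ring
      _ ≤ Real.exp (L * (-(1 + ε / 2))) := by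
          apply Real.exp_le_exp.2
          have h2 : (1 + ε / 2) * L ≤ (blk t n h).card / K := by
            rw [le_div_iff₀ (by linarith)]
            refine le_trans ?_ h1
            have h3 : (1 + ε) * L ≤ h / L := by
              rw [le_div_iff₀ (by linarith)]
              calc (1 + ε) * L * L = (1 + ε) * L ^ 2 := by ring
                _ ≤ h := hh
            have h4 : (1 + ε / 2) * L ≤ (1 - ε / 4) * (h / L) := by
              have h5 : (1 - ε / 4) * ((1 + ε) * L) ≤ (1 - ε / 4) * (h / L) := by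
                apply mul_le_mul_of_nonneg_left h3
                linarith
              refine le_trans ?_ h5
              nlinarith [mul_nonneg (mul_nonneg hε.le (show (0:ℝ) ≤ 1 - ε by linarith)) (show (0:ℝ) ≤ L by linarith)]
            calc (1 + ε / 2) * L * K ≤ (1 - ε / 4) * (h / L) * K := by gcongr
              _ = _ := by ring
          linarith
      _ = _ := by rw [hL, Real.rpow_def_of_pos (by linarith)]
  calc μ.real {ω | ∃ n : ℕ, 3 * X ≤ n ∧ n ≤ 4 * X ∧ ∀ x ∈ blk t n h, ω ∉ E x} ≤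
        μ.real (⋃ n ∈ Icc (3 * X) (4 * X), ⋂ i ∈ blk t n h, (E i)ᶜ) := measureReal_mono hsub (measure_ne_top _ _)
    _ ≤ ∑ n ∈ Icc (3 * X) (4 * X), μ.real (⋂ i ∈ blk t n h, (E i)ᶜ) := measureReal_biUnion_finset_le _ _
    _ ≤ ∑ n ∈ Icc (3 * X) (4 * X), (X : ℝ) ^ (-(1 + ε / 2)) := sum_le_sum hone
    _ = (X + 1) * (X : ℝ) ^ (-(1 + ε / 2)) := by
        rw [sum_const, Nat.card_Icc, nsmul_eq_mul]
        congr 1
        have : 4 * X + 1 - 3 * X = X + 1 := by omega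
        rw [this]
        push_cast
        ring
    _ ≤ ((X : ℝ) ^ (ε / 4) * X) * (X : ℝ) ^ (-(1 + ε / 2)) := by
        gcongr
        have := hX₁ X (by omega)
        nlinarith
    _ = (X : ℝ) ^ (ε / 4 + 1 + (-(1 + ε / 2))) := by
        rw [Real.rpow_add (by linarith), Real.rpow_add (by linarith), Real.rpow_one]
    _ ≤ _ := by
        apply Real.rpow_le_rpow_of_exponent_le (by linarith)
        linarith

/-- the windows of length `h ≤ (1 - ε) log ^ 2 X` -/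
theorem lowprob (ε : ℝ) (hε : 0 < ε) (hε1 : ε < 1) : ∃ C : ℝ, 0 < C ∧ ∃ X₀ : ℕ, ∀ (X K h : ℕ) (t : Fin K → ℕ), X₀ ≤ X →
    C ≤ K → 1 ≤ h → (h : ℝ) ≤ (1 - ε) * Real.log X ^ 2 → (∀ i, 1 ≤ t i ∧ t i ≤ X) →
    ∀ {Ω : Type} [MeasurableSpace Ω] (μ : Measure Ω) [IsProbabilityMeasure μ] (E : Fin K × ℕ → Set Ω),
      (∀ i, MeasurableSet (E i)) → iIndepSet E μ → (∀ i, μ.real (E i) = 1 / K) →
      μ.real {ω | ∀ n : ℕ, 3 * X ≤ n → n + h ≤ 4 * X → ∃ x ∈ blk t n h, ω ∈ E x} ≤ (X : ℝ) ^ (-(ε / 8)) := by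
  classical
  obtain ⟨η, hη⟩ : ∃ η : ℝ, η = ε / 16 := ⟨_, rfl⟩
  have hη0 : 0 < η := by rw [hη]; positivity
  have hη1 : η ≤ 1 / 16 := by rw [hη]; linarith
  obtain ⟨X₁, hup⟩ := upcount η hη0 (by linarith)
  obtain ⟨X₂, hX₂⟩ : ∃ X₂ : ℕ, ∀ X : ℕ, X₂ ≤ X → Real.log X ^ 2 ≤ ε / 8 * X := by
    have h2 := (isLittleO_log_rpow_rpow_atTop (s := 1) 2 one_pos).bound (show (0 : ℝ) < ε / 8 by positivity)
    have h3 := (tendsto_natCast_atTop_atTop (R := ℝ)).eventually h2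
    obtain ⟨X₂, h4⟩ := Filter.eventually_atTop.1 h3
    refine ⟨X₂, fun X hX => ?_⟩
    have h5 := h4 X hX
    rw [Real.rpow_two, Real.rpow_one, Real.norm_of_nonneg (sq_nonneg _), Real.norm_of_nonneg (Nat.cast_nonneg _)] at h5
    exact h5
  obtain ⟨X₃, hX₃⟩ : ∃ X₃ : ℕ, ∀ X : ℕ, X₃ ≤ X → Real.log X ^ 2 ≤ 1 / 2 * (X : ℝ) ^ (ε / 8) := by
    have h2 := (isLittleO_log_rpow_rpow_atTop (s := ε / 8) 2 (by positivity)).bound (show (0 : ℝ) < 1 / 2 by norm_num)
    have h3 := (tendsto_natCast_atTop_atTop (R := ℝ)).eventually h2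
    obtain ⟨X₃, h4⟩ := Filter.eventually_atTop.1 h3
    refine ⟨X₃, fun X hX => ?_⟩
    have h5 := h4 X hX
    rw [Real.rpow_two, Real.norm_of_nonneg (sq_nonneg _),
      Real.norm_of_nonneg (Real.rpow_nonneg (Nat.cast_nonneg _) _)] at h5
    exact h5
  refine ⟨1 / η, by positivity, X₁ + X₂ + X₃ + 9, fun X K h t hX hK hh1 hh ht Ω _ μ _ E hm hE hq => ?_⟩
  have hX9 : (9 : ℝ) ≤ X := by exact_mod_cast (by omega : 9 ≤ X)
  have g2 := hX₂ X (by omega)
  have g3 := hX₃ X (by omega)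
  obtain ⟨L, hL⟩ : ∃ L : ℝ, L = Real.log X := ⟨_, rfl⟩
  rw [← hL] at hh g2 g3
  have hL1 : 1 < L := by
    rw [hL, Real.lt_log_iff_exp_lt (by linarith)]
    have := Real.exp_one_lt_d9
    linarith
  have hL0 : 0 < L := by linarith
  have hK0 : (0 : ℝ) < K := lt_of_lt_of_le (by positivity) hK
  have hKη : 1 / (K : ℝ) ≤ η := by
    rw [div_le_iff₀ hK0]
    have := mul_le_mul_of_nonneg_left hK hη0.le
    rwa [mul_one_div_cancel hη0.ne'] at this
  have hK0' : (0 : ℝ) < 1 / K := by positivity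
  obtain ⟨J, hJ⟩ : ∃ J : ℕ, J = X / h := ⟨_, rfl⟩
  have hJ1 : J * h ≤ X := by rw [hJ]; exact Nat.div_mul_le_self X h
  have hJ2 : X < (J + 1) * h := by
    rw [hJ]
    have e1 := Nat.div_add_mod X h
    have e2 := Nat.mod_lt X hh1
    have e3 : (X / h + 1) * h = h * (X / h) + h := by ring
    rw [e3]
    omega
  have hhr : (1 : ℝ) ≤ h := by exact_mod_cast hh1
  have hJ3 : (X : ℝ) < (J + 1) * h := by exact_mod_cast hJ2
  have hJ4 : (X : ℝ) ≤ (J + 1) * ((1 - ε) * L ^ 2) := by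
    refine hJ3.le.trans ?_
    gcongr
  -- the sum of the numbers
  have hsum := hup X K h J t (by omega) ht hJ1
  rw [← hL] at hsum
  obtain ⟨x, hx⟩ : ∃ x : ℕ → ℝ, x = fun j => (1 + η) * ((blk t (3 * X + j * h) h).card / K) := ⟨_, rfl⟩
  have hxs : ∑ j ∈ range J, x j ≤ J * ((1 - ε / 4) * L) := by
    have h1 : ∑ j ∈ range J, x j = (1 + η) / K * ∑ j ∈ range J, ((blk t (3 * X + j * h) h).card : ℝ) := by
      rw [hx, mul_sum]
      apply sum_congr rfl
      intro j _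
      ring
    rw [h1]
    have h2 : (1 + η) / K * ∑ j ∈ range J, ((blk t (3 * X + j * h) h).card : ℝ) ≤ (1 + η) ^ 2 * (X / L) := by
      calc (1 + η) / K * ∑ j ∈ range J, ((blk t (3 * X + j * h) h).card : ℝ) ≤ (1 + η) / K * (K * ((1 + η) * (X / L))) := by
            gcongr
        _ = _ := by field_simp
    refine h2.trans ?_
    -- (1 + η)^2 X / L ≤ J (1 - ε/4) L
    have h3 : (1 + η) ^ 2 ≤ 1 + ε / 4 := by
      rw [hη]
      nlinarith
    have h4 : (1 + ε / 4) * X ≤ J * (1 - ε / 4) * L ^ 2 := by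
      have h5 : (X : ℝ) - (1 - ε) * L ^ 2 ≤ J * ((1 - ε) * L ^ 2) := by linarith
      have h6 : (1 + 3 * ε / 4) * (X - (1 - ε) * L ^ 2) ≤ (1 + 3 * ε / 4) * (J * ((1 - ε) * L ^ 2)) := by
        apply mul_le_mul_of_nonneg_left h5
        linarith
      have h7 : (1 + 3 * ε / 4) * (J * ((1 - ε) * L ^ 2)) ≤ J * (1 - ε / 4) * L ^ 2 := by
        have h8 : (1 + 3 * ε / 4) * (1 - ε) ≤ 1 - ε / 4 := by nlinarith
        have h9 : (0 : ℝ) ≤ J * L ^ 2 := by positivity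
        nlinarith
      have h8 : (1 + ε / 4) * X ≤ (1 + 3 * ε / 4) * (X - (1 - ε) * L ^ 2) := by
        have h9 : (1 + 3 * ε / 4) * ((1 - ε) * L ^ 2) ≤ 2 * L ^ 2 := by
          have h10 : (1 + 3 * ε / 4) * (1 - ε) ≤ 2 := by nlinarith
          nlinarith [sq_nonneg L]
        nlinarith
      linarith
    calc (1 + η) ^ 2 * (X / L) ≤ (1 + ε / 4) * (X / L) := by gcongr
      _ = ((1 + ε / 4) * X) / L := by ring
      _ ≤ (J * (1 - ε / 4) * L ^ 2) / L := by gcongr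
      _ = _ := by field_simp
  have hjen := jensen J x _ hxs
  have hJbig : (X : ℝ) / (2 * L ^ 2) ≤ J := by
    rw [div_le_iff₀ (by positivity)]
    have h1 : (X : ℝ) ≤ (J + 1) * L ^ 2 := by
      refine hJ4.trans ?_
      have : (1 - ε) * L ^ 2 ≤ L ^ 2 := by nlinarith [sq_nonneg L]
      gcongr
    nlinarith
  have hbig : (X : ℝ) ^ (ε / 8) ≤ ∑ j ∈ range J, Real.exp (-x j) := by
    refine le_trans ?_ hjen
    have h1 : Real.exp (-((1 - ε / 4) * L)) = (X : ℝ) ^ (-(1 - ε / 4)) := by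
      rw [hL, Real.rpow_def_of_pos (by linarith)]
      congr 1
      ring
    rw [h1]
    have h2 : (X : ℝ) * (X : ℝ) ^ (-(1 - ε / 4)) = (X : ℝ) ^ (ε / 8) * (X : ℝ) ^ (ε / 8) := by
      rw [← Real.rpow_add (by linarith)]
      nth_rewrite 1 [← Real.rpow_one (X : ℝ)]
      rw [← Real.rpow_add (by linarith)]
      congr 1
      ring
    have hXe : 0 < (X : ℝ) ^ (ε / 8) := Real.rpow_pos_of_pos (by linarith) _
    calc (X : ℝ) ^ (ε / 8) = ((X : ℝ) ^ (ε / 8) * (X : ℝ) ^ (ε / 8)) / (X : ℝ) ^ (ε / 8) := by field_simp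
      _ ≤ ((X : ℝ) ^ (ε / 8) * (X : ℝ) ^ (ε / 8)) / (2 * L ^ 2) := by
          apply div_le_div_of_nonneg_left (by positivity) (by positivity)
          linarith
      _ = X / (2 * L ^ 2) * (X : ℝ) ^ (-(1 - ε / 4)) := by rw [← h2]; ring
      _ ≤ _ := by gcongr
  -- the probability
  have hsub : {ω | ∀ n : ℕ, 3 * X ≤ n → n + h ≤ 4 * X → ∃ x ∈ blk t n h, ω ∈ E x} ⊆
      ⋂ j ∈ range J, (⋂ i ∈ blk t (3 * X + j * h) h, (E i)ᶜ)ᶜ := by
    intro ω hω
    simp only [Set.mem_iInter]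
    intro j hj
    rw [mem_range] at hj
    have h2 : (j + 1) * h ≤ J * h := Nat.mul_le_mul_right _ hj
    have h3 : (j + 1) * h = j * h + h := by ring
    obtain ⟨y, hy1, hy2⟩ := hω (3 * X + j * h) (by omega) (by omega)
    intro hcon
    simp only [Set.mem_iInter] at hcon
    exact hcon y hy1 hy2
  have hprod := all_prob hE hm (1 / K) hq (fun j => blk t (3 * X + j * h) h) (fun j k hjk => blk_disj t (3 * X) h j k hjk) J
  calc μ.real {ω | ∀ n : ℕ, 3 * X ≤ n → n + h ≤ 4 * X → ∃ x ∈ blk t n h, ω ∈ E x} ≤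
        μ.real (⋂ j ∈ range J, (⋂ i ∈ blk t (3 * X + j * h) h, (E i)ᶜ)ᶜ) := measureReal_mono hsub (measure_ne_top _ _)
    _ = ∏ j ∈ range J, (1 - (1 - 1 / (K : ℝ)) ^ (blk t (3 * X + j * h) h).card) := hprod
    _ ≤ ∏ j ∈ range J, Real.exp (-Real.exp (-x j)) := by
        apply prod_le_prod
        · intro j _
          rw [sub_nonneg]
          apply pow_le_one₀
          · linarith
          · linarith
        · intro j _
          have h1 : Real.exp (-x j) ≤ (1 - 1 / (K : ℝ)) ^ (blk t (3 * X + j * h) h).card := by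
            have h2 : Real.exp (-((1 + η) * (1 / K))) ≤ 1 - 1 / (K : ℝ) := by
              refine (exp_quad (by positivity)).trans ?_
              have h3 : (1 + η) ^ 2 * (1 / (K : ℝ)) ^ 2 / 2 ≤ η * (1 / K) := by
                have h4 : (1 + η) ^ 2 ≤ 2 := by nlinarith
                have h5 : (1 / (K : ℝ)) ^ 2 ≤ η * (1 / K) := by
                  rw [pow_two]
                  gcongr
                have h6 : 0 ≤ (1 / (K : ℝ)) ^ 2 := sq_nonneg _
                nlinarith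
              nlinarith
            calc Real.exp (-x j) = (Real.exp (-((1 + η) * (1 / K)))) ^ (blk t (3 * X + j * h) h).card := by
                  rw [← Real.exp_nat_mul, hx]
                  congr 1
                  ring
              _ ≤ _ := pow_le_pow_left₀ (Real.exp_pos _).le h2 _
          have h3 := Real.add_one_le_exp (-Real.exp (-x j))
          linarith
    _ = Real.exp (-∑ j ∈ range J, Real.exp (-x j)) := by
        rw [← Real.exp_sum, sum_neg_distrib]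
    _ ≤ Real.exp (-(X : ℝ) ^ (ε / 8)) := Real.exp_le_exp.2 (neg_le_neg hbig)
    _ ≤ (X : ℝ) ^ (-(ε / 8)) := by
        rw [Real.exp_neg, Real.rpow_neg (by linarith)]
        apply inv_anti₀ (Real.rpow_pos_of_pos (by linarith) _)
        have := Real.add_one_le_exp ((X : ℝ) ^ (ε / 8))
        linarith

end Pool.Agent.U497.RT
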