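import Pool.Agent.U497.AW.Pairs2
import Pool.Agent.U497.AW.Var
import Pool.Agent.U497.UT.Fin

/-!
# Windows with primes: the second moment and a lower bound for the number of the windows which contain primes (helper497)
-/

set_option autoImplicit false

open Finset

namespace Pool.Agent.U497.RT

open Pool.Agent.TH423.SH (PS)
open Pool.Agent.Y677.RSZ (rt V)
open Pool.Agent.K3h89.SZ (SysP)
open Pool.Agent.U497.AW

lemma rt_id {p : ℕ} (hp : 0 < p) : rt (fun x => x) p = 1 := by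
  unfold rt
  have h : (range p).filter (fun r : ℕ => (p : ℤ) ∣ (r : ℤ)) = {0} := by
    ext r
    simp only [mem_filter, mem_range, mem_singleton]
    constructor
    · rintro ⟨h1, h2⟩
      have h3 : p ∣ r := by exact_mod_cast h2
      exact Nat.eq_zero_of_dvd_of_lt h3 h1
    · rintro rfl
      exact ⟨hp, by simp⟩
  show ((range p).filter (fun r : ℕ => (p : ℤ) ∣ (r : ℤ))).card = 1
  rw [h]
  rfl

lemma sysP_id : SysP 1 (fun x => x) :=
  ⟨fun p _ n => by
    show (p : ℤ) ∣ n + p ↔ (p : ℤ) ∣ n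
    exact (Int.dvd_add_left (dvd_refl _)), fun p hp => by
    rw [rt_id hp.pos]
    exact ⟨le_rfl, hp.one_lt⟩⟩

lemma V_id (z : ℕ) : V (fun x => x) 1 z = ∏ p ∈ (Icc 1 z).filter Nat.Prime, (1 - 1 / (p : ℝ)) := by
  unfold V
  have h1 : PS 1 z = (Icc 1 z).filter Nat.Prime := by
    unfold PS
    apply filter_congr
    intro p _
    constructor
    · exact fun h => h.1
    · exact fun h => ⟨h, fun h2 => h.one_lt.ne' (Nat.dvd_one.1 h2)⟩
  rw [h1]
  apply prod_congr rfl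
  intro p hp
  rw [rt_id (mem_filter.1 hp).2.pos, Nat.cast_one]

/-- the second moment of the numbers of primes in short windows -/
theorem sec : ∃ C : ℝ, 0 < C ∧ ∃ N₀ : ℕ, ∀ N : ℕ, N₀ ≤ N → ∀ Y : ℕ, N ≤ Y → ∀ (h : ℕ) (I : Finset ℕ),
    ((∑ n ∈ I, Xc ((Ioc Y (Y + N)).filter Nat.Prime) h n * Xc ((Ioc Y (Y + N)).filter Nat.Prime) h n : ℕ) : ℝ) ≤
      C * (h * N / Real.log N) * (1 + h / Real.log N) := by
  classical
  obtain ⟨W, E, N₁, hW, hE, h1⟩ := pairs 1 1 1 one_pos le_rfl one_pos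
  obtain ⟨c, C, hc, hC, H₀, h2⟩ := Pool.Agent.U497.UT.mert
  obtain ⟨B, hB⟩ : ∃ B : ℝ, B = 8 * E * C := ⟨_, rfl⟩
  have hEr : (1 : ℝ) ≤ E := by exact_mod_cast hE
  have hWr : (1 : ℝ) ≤ W := by exact_mod_cast hW
  have hB0 : 0 < B := by rw [hB]; positivity
  refine ⟨B * (2 + 8 * W + 4 * B), by positivity, N₁ + (H₀ + 3) ^ (8 * E) + 3, fun N hN Y hY h I => ?_⟩
  obtain ⟨z, hz1, hz2, hz3, h3⟩ := h1 N (by omega)
  obtain ⟨-, h4, h5⟩ := h3 (fun x => x) Y sysP_id
  obtain ⟨S, hS⟩ : ∃ S : Finset ℕ, S = Sf (fun x => x) z Y N := ⟨_, rfl⟩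
  rw [← hS] at h4 h5
  have hz : H₀ + 3 ≤ z := by
    by_contra hcon
    have h6 : z ^ (8 * E) ≤ (H₀ + 3) ^ (8 * E) := Nat.pow_le_pow_left (by omega) _
    omega
  have hN3 : 3 ≤ N := by omega
  have hlN : 0 < Real.log N := Real.log_pos (by exact_mod_cast (by omega : 1 < N))
  have hlz : 0 < Real.log z := Real.log_pos (by exact_mod_cast (by omega : 1 < z))
  obtain ⟨v, hv⟩ : ∃ v : ℝ, v = V (fun x => x) 1 z := ⟨_, rfl⟩
  rw [← hv] at h4 h5
  have hv1 : v ≤ B / Real.log N := by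
    rw [hv, V_id]
    refine (h2 z (by omega)).2.trans ?_
    rw [hB, div_le_div_iff₀ hlz hlN]
    have h6 : Real.log N ≤ (8 * E : ℕ) * Real.log z := by
      rw [← Real.log_pow]
      exact Real.log_le_log (by positivity) (by exact_mod_cast hz3.le)
    push_cast at h6
    calc C * Real.log N ≤ C * (8 * E * Real.log z) := by gcongr
      _ = _ := by ring
  have hv0 : 0 ≤ v := by
    rw [hv, V_id]
    apply prod_nonneg
    intro p hp
    have h6 : (1 : ℝ) ≤ p := by exact_mod_cast (mem_filter.1 hp).2.pos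
    rw [sub_nonneg, div_le_one (by linarith)]
    exact h6
  have hsub : (Ioc Y (Y + N)).filter Nat.Prime ⊆ S := by
    intro p hp
    rw [mem_filter, mem_Ioc] at hp
    rw [hS]
    unfold Sf
    rw [mem_filter, mem_Ioc]
    refine ⟨hp.1, fun q hq hqp => ?_⟩
    rw [mem_ps] at hq
    have h6 : q ∣ p := by
      have h7 : (q : ℤ) ∣ (p : ℤ) := hqp
      exact_mod_cast h7
    have h7 := (Nat.prime_dvd_prime_iff_eq hq.1 hp.2).1 h6
    omega
  have hX : ∀ n, Xc ((Ioc Y (Y + N)).filter Nat.Prime) h n ≤ Xc S h n := by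
    intro n
    unfold Xc
    exact card_le_card (filter_subset_filter _ hsub)
  have h6 : ∑ n ∈ I, Xc ((Ioc Y (Y + N)).filter Nat.Prime) h n * Xc ((Ioc Y (Y + N)).filter Nat.Prime) h n ≤
      h * S.card + 2 * ∑ l ∈ range h, ∑ d ∈ Icc 1 l, (S.filter (fun n => n + d ∈ S)).card :=
    (sum_le_sum fun n _ => Nat.mul_le_mul (hX n) (hX n)).trans (sumX_sq S I h)
  have hh : (0 : ℝ) ≤ h := Nat.cast_nonneg _
  have hNn : (0 : ℝ) ≤ N := Nat.cast_nonneg _
  have h7 : ∀ l ∈ range h, ((∑ d ∈ Icc 1 l, (S.filter (fun n => n + d ∈ S)).card : ℕ) : ℝ) ≤ 2 * (N * v) * (v * h + 2 * W) := by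
    intro l hl
    refine (h5 l).trans ?_
    have h8 : (l : ℝ) ≤ h := by exact_mod_cast (mem_range.1 hl).le
    have h9 : v * (l : ℝ) + W * (((1 : ℕ) : ℝ) + 1) ≤ v * h + 2 * W := by
      push_cast
      nlinarith [mul_le_mul_of_nonneg_left h8 hv0]
    have h10 : (0 : ℝ) ≤ N * v := by positivity
    calc (1 + 1) * (N * v) * (v * (l : ℝ) + W * (((1 : ℕ) : ℝ) + 1)) ≤ (1 + 1) * (N * v) * (v * h + 2 * W) := by gcongr
      _ = _ := by ring
  have h8 : ((∑ n ∈ I, Xc ((Ioc Y (Y + N)).filter Nat.Prime) h n * Xc ((Ioc Y (Y + N)).filter Nat.Prime) h n : ℕ) : ℝ) ≤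
      h * (2 * (N * v)) + 2 * (h * (2 * (N * v) * (v * h + 2 * W))) := by
    refine (Nat.cast_le.2 h6).trans ?_
    push_cast
    have h9 : ∑ l ∈ range h, ((∑ d ∈ Icc 1 l, (S.filter (fun n => n + d ∈ S)).card : ℕ) : ℝ) ≤
        h * (2 * (N * v) * (v * h + 2 * W)) := by
      refine (sum_le_card_nsmul _ _ _ h7).trans (le_of_eq ?_)
      rw [card_range, nsmul_eq_mul]
    push_cast at h9
    have h10 : (S.card : ℝ) ≤ 2 * (N * v) := by linarith
    have h11 := mul_le_mul_of_nonneg_left h10 hh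
    linarith
  refine h8.trans ?_
  have h9 : h * (2 * (N * v)) + 2 * (h * (2 * (N * v) * (v * h + 2 * W))) = (h * N) * v * (2 + 8 * W + 4 * (v * h)) := by ring
  rw [h9]
  have h10 : v * h ≤ B * (h / Real.log N) := by
    calc v * h ≤ B / Real.log N * h := by gcongr
      _ = _ := by ring
  have h11 : 0 ≤ (h : ℝ) / Real.log N := by positivity
  calc (h * N : ℝ) * v * (2 + 8 * W + 4 * (v * h)) ≤ (h * N : ℝ) * (B / Real.log N) * (2 + 8 * W + 4 * (B * (h / Real.log N))) := by gcongr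
    _ ≤ (h * N : ℝ) * (B / Real.log N) * ((2 + 8 * W + 4 * B) * (1 + h / Real.log N)) := by
        apply mul_le_mul_of_nonneg_left _ (by positivity)
        nlinarith [mul_nonneg (by positivity : (0:ℝ) ≤ 2 + 8 * W) h11, hB0]
    _ = _ := by ring

end Pool.Agent.U497.RT
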