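import Pool.Agent.U497.RT.Core

/-!
# Random translates of the primes (helper497)
-/

set_option autoImplicit false

open Finset

namespace Pool.Agent.U497.RT

/-- the translates `t ≤ X` for which the window `(n, n + h]` contains no `p + t` -/
noncomputable def Bd (X n h : ℕ) : Finset ℕ := by
  classical
  exact (Icc 1 X).filter (fun t => ∀ p : ℕ, p.Prime → n < p + t → ¬ p + t ≤ n + h)

/-- the bad translates are few, with an exponential factor -/
theorem bad : ∃ δ c : ℝ, 0 < δ ∧ δ < 1 ∧ 0 < c ∧ ∃ X₀ : ℕ, ∀ X n h : ℕ, X₀ ≤ X → 3 * X ≤ n → (n : ℝ) ≤ (X : ℝ) ^ (1 + δ) →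
    1 ≤ h → (h : ℝ) ≤ Real.log X → ((Bd X n h).card : ℝ) ≤ X * Real.exp (-(c * h / Real.log X)) := by
  classical
  obtain ⟨δ, c, hδ, hδ1, hc, Y₀, hcore⟩ := core
  obtain ⟨X₁, hX₁⟩ : ∃ X₁ : ℕ, ∀ X : ℕ, X₁ ≤ X → (X : ℝ) ^ (1 - δ ^ 2) ≤ X - 1 := by
    have h2 : Filter.Tendsto (fun X : ℕ => (X : ℝ) ^ (δ ^ 2)) Filter.atTop Filter.atTop :=
      (tendsto_rpow_atTop (by positivity)).comp tendsto_natCast_atTop_atTop
    obtain ⟨X₁, h3⟩ := Filter.eventually_atTop.1 (h2.eventually_ge_atTop 2)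
    refine ⟨X₁ + 2, fun X hX => ?_⟩
    have h4 := h3 X (by omega)
    have hXr : (2 : ℝ) ≤ X := by exact_mod_cast (by omega : 2 ≤ X)
    have h5 : (X : ℝ) ^ (1 - δ ^ 2) * (X : ℝ) ^ (δ ^ 2) = X := by
      rw [← Real.rpow_add (by linarith)]
      norm_num
    have h6 : 0 ≤ (X : ℝ) ^ (1 - δ ^ 2) := Real.rpow_nonneg (by linarith) _
    nlinarith
  refine ⟨δ, c / 4, hδ, hδ1, by positivity, Y₀ + X₁ + 3, fun X n h hX hn1 hn2 hh1 hhX => ?_⟩
  have hX3 : (3 : ℝ) ≤ X := by exact_mod_cast (by omega : 3 ≤ X)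
  have hlX : 0 < Real.log X := Real.log_pos (by linarith)
  obtain ⟨Y, hY⟩ : ∃ Y : ℕ, Y = n - X := ⟨_, rfl⟩
  obtain ⟨N, hN⟩ : ∃ N : ℕ, N = X - 1 := ⟨_, rfl⟩
  have hNr : (N : ℝ) = X - 1 := by rw [hN, Nat.cast_sub (by omega)]; norm_num
  have hYX : X ≤ Y := by omega
  have hYn : (Y : ℝ) ≤ (X : ℝ) ^ (1 + δ) := le_trans (by exact_mod_cast (by omega : Y ≤ n)) hn2
  have hXY : (X : ℝ) ≤ Y := by exact_mod_cast hYX
  have h1 : (Y : ℝ) ^ (1 - δ) ≤ N := by
    rw [hNr]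
    refine le_trans ?_ (hX₁ X (by omega))
    calc (Y : ℝ) ^ (1 - δ) ≤ ((X : ℝ) ^ (1 + δ)) ^ (1 - δ) :=
          Real.rpow_le_rpow (Nat.cast_nonneg _) hYn (by linarith)
      _ = (X : ℝ) ^ (1 - δ ^ 2) := by
          rw [← Real.rpow_mul (by linarith)]
          congr 1
          ring
  have hlYX : Real.log X ≤ Real.log Y := Real.log_le_log (by linarith) hXY
  have hlY2 : Real.log Y ≤ 2 * Real.log X := by
    have h2 : Real.log Y ≤ Real.log ((X : ℝ) ^ (1 + δ)) := Real.log_le_log (by linarith) hYn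
    rw [Real.log_rpow (by linarith)] at h2
    nlinarith
  have h2 := hcore Y N h (by omega) h1 (by omega) hh1 (hhX.trans hlYX)
  obtain ⟨G, hG⟩ : ∃ G : Finset ℕ, G = (Icc Y (Y + N)).filter (fun m => ∃ p : ℕ, p.Prime ∧ m < p ∧ p ≤ m + h) := ⟨_, rfl⟩
  rw [← hG] at h2
  have h3 : (Bd X n h).card + G.card ≤ X := by
    have h4 : G.card ≤ ((Icc 1 X).filter (fun t => ¬ ∀ p : ℕ, p.Prime → n < p + t → ¬ p + t ≤ n + h)).card := by
      apply card_le_card_of_injOn (fun m => n - m)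
      · intro m hm
        rw [mem_coe, hG, mem_filter, mem_Icc] at hm
        obtain ⟨hm1, p, hp, hp1, hp2⟩ := hm
        show n - m ∈ _
        rw [mem_coe, mem_filter, mem_Icc]
        refine ⟨by omega, fun hcon => hcon p hp (by omega) (by omega)⟩
      · intro m hm m' hm' he
        rw [mem_coe, hG, mem_filter, mem_Icc] at hm hm'
        have he' : n - m = n - m' := he
        omega
    have h5 : (Bd X n h).card + ((Icc 1 X).filter (fun t => ¬ ∀ p : ℕ, p.Prime → n < p + t → ¬ p + t ≤ n + h)).card = X := by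
      unfold Bd
      rw [card_filter_add_card_filter_not, Nat.card_Icc]
      omega
    omega
  have h4 : ((Bd X n h).card : ℝ) + G.card ≤ X := by exact_mod_cast h3
  have hhr : (1 : ℝ) ≤ h := by exact_mod_cast hh1
  have h5 : X * (c / 4 * h / Real.log X) ≤ (G.card : ℝ) := by
    refine le_trans ?_ h2
    have h6 : (X : ℝ) / 2 ≤ N := by rw [hNr]; linarith
    have h7 : 1 / (2 * Real.log X) ≤ 1 / Real.log Y := one_div_le_one_div_of_le (by linarith) hlY2
    calc X * (c / 4 * h / Real.log X) = c * (X / 2 * h * (1 / (2 * Real.log X))) := by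
          field_simp
          ring
      _ ≤ c * (N * h * (1 / Real.log Y)) := by gcongr
      _ = _ := by ring
  have h6 := Real.add_one_le_exp (-(c / 4 * h / Real.log X))
  nlinarith

open Classical in
/-- the number of the bad tuples of translates -/
theorem tuples (B : ℝ) : ∃ δ C : ℝ, 0 < δ ∧ 0 < C ∧ ∃ X₀ : ℕ, ∀ X K h : ℕ, X₀ ≤ X → C * Real.log X ≤ K →
    C * Real.log X ^ 2 ≤ K * h →
    (((Fintype.piFinset (fun _ : Fin K => Icc 1 X)).filter (fun t => ∃ n : ℕ, 3 * X ≤ n ∧ (n : ℝ) ≤ (X : ℝ) ^ (1 + δ) ∧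
      ∀ (i : Fin K) (p : ℕ), p.Prime → n < p + t i → ¬ p + t i ≤ n + h)).card : ℝ) ≤ (X : ℝ) ^ K * (X : ℝ) ^ (-B) := by
  obtain ⟨δ, c, hδ, hδ1, hc, X₀, hbad⟩ := bad
  obtain ⟨A, hA⟩ : ∃ A : ℝ, A = (|B| + 2) / c := ⟨_, rfl⟩
  have hA0 : 0 < A := by rw [hA]; positivity
  refine ⟨δ, 2 * A, hδ, by positivity, X₀ + 9, fun X K h hX hK hKh => ?_⟩
  have hX3 : (9 : ℝ) ≤ X := by exact_mod_cast (by omega : 9 ≤ X)
  have hlX : 1 < Real.log X := by
    rw [Real.lt_log_iff_exp_lt (by linarith)]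
    have := Real.exp_one_lt_d9
    linarith
  -- a shorter window
  obtain ⟨h', hh'⟩ : ∃ h' : ℕ, h' = min h ⌊Real.log X⌋₊ := ⟨_, rfl⟩
  have hfl1 : 1 ≤ ⌊Real.log X⌋₊ := by
    rw [Nat.one_le_floor_iff]
    exact hlX.le
  have hfl2 : Real.log X / 2 ≤ ⌊Real.log X⌋₊ := by
    have h1 := Nat.lt_floor_add_one (Real.log X)
    have h2 : (1 : ℝ) ≤ ⌊Real.log X⌋₊ := by exact_mod_cast hfl1
    linarith
  have hK0 : (0 : ℝ) ≤ K := Nat.cast_nonneg _
  have hh1 : 1 ≤ h := by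
    by_contra hcon
    have h1 : h = 0 := by omega
    rw [h1] at hKh
    have h2 : 0 < 2 * A * Real.log X ^ 2 := by positivity
    norm_num at hKh
    linarith
  have hh'1 : 1 ≤ h' := by rw [hh']; exact le_min hh1 hfl1
  have hh'2 : (h' : ℝ) ≤ Real.log X := by
    calc (h' : ℝ) ≤ ⌊Real.log X⌋₊ := by exact_mod_cast (by rw [hh']; exact min_le_right _ _)
      _ ≤ _ := Nat.floor_le (by linarith)
  have hh'3 : A * Real.log X ^ 2 ≤ K * h' := by
    rw [hh']
    rcases le_total h ⌊Real.log X⌋₊ with h1 | h1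
    · rw [min_eq_left h1]
      have h2 : 0 < A * Real.log X ^ 2 := by positivity
      linarith
    · rw [min_eq_right h1]
      calc A * Real.log X ^ 2 = (2 * A * Real.log X) * (Real.log X / 2) := by ring
        _ ≤ K * ⌊Real.log X⌋₊ := by gcongr
  have hh'4 : h' ≤ h := by rw [hh']; exact min_le_left _ _
  obtain ⟨M, hM⟩ : ∃ M : ℕ, M = ⌊(X : ℝ) ^ (1 + δ)⌋₊ := ⟨_, rfl⟩
  have hsub : (Fintype.piFinset (fun _ : Fin K => Icc 1 X)).filter (fun t => ∃ n : ℕ, 3 * X ≤ n ∧ (n : ℝ) ≤ (X : ℝ) ^ (1 + δ) ∧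
      ∀ (i : Fin K) (p : ℕ), p.Prime → n < p + t i → ¬ p + t i ≤ n + h) ⊆
      (Icc (3 * X) M).biUnion (fun n => Fintype.piFinset (fun _ : Fin K => Bd X n h')) := by
    intro t ht
    rw [mem_filter, Fintype.mem_piFinset] at ht
    obtain ⟨ht1, n, hn1, hn2, hn3⟩ := ht
    rw [mem_biUnion]
    refine ⟨n, ?_, ?_⟩
    · rw [mem_Icc, hM]
      exact ⟨hn1, Nat.le_floor hn2⟩
    · rw [Fintype.mem_piFinset]
      intro i
      unfold Bd
      rw [mem_filter]
      refine ⟨ht1 i, fun p hp h1 h2 => hn3 i p hp h1 (by omega)⟩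
  have h1 : ∀ n ∈ Icc (3 * X) M, ((Fintype.piFinset (fun _ : Fin K => Bd X n h')).card : ℝ) ≤
      (X : ℝ) ^ K * Real.exp (-((|B| + 2) * Real.log X)) := by
    intro n hn
    rw [mem_Icc] at hn
    have hn2 : (n : ℝ) ≤ (X : ℝ) ^ (1 + δ) := by
      refine le_trans ?_ (Nat.floor_le (Real.rpow_nonneg (by linarith) _))
      rw [← hM]
      exact_mod_cast hn.2
    have h2 := hbad X n h' (by omega) hn.1 hn2 hh'1 hh'2
    rw [Fintype.card_piFinset_const]
    push_cast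
    calc ((Bd X n h').card : ℝ) ^ K ≤ (X * Real.exp (-(c * h' / Real.log X))) ^ K := by gcongr
      _ = (X : ℝ) ^ K * Real.exp (-(c * (K * h') / Real.log X)) := by
          rw [mul_pow, ← Real.exp_nat_mul]
          congr 2
          ring
      _ ≤ _ := by
          gcongr
          rw [le_div_iff₀ (by linarith)]
          calc (|B| + 2) * Real.log X * Real.log X = c * (A * Real.log X ^ 2) := by
                rw [hA]
                field_simp
            _ ≤ c * (K * h') := by gcongr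
  have h2 : (M : ℝ) ≤ (X : ℝ) ^ (2 : ℝ) := by
    rw [hM]
    refine (Nat.floor_le (Real.rpow_nonneg (by linarith) _)).trans ?_
    exact Real.rpow_le_rpow_of_exponent_le (by linarith) (by linarith)
  have h3 : ((Icc (3 * X) M).card : ℝ) ≤ M := by
    rw [Nat.card_Icc]
    exact_mod_cast (by omega : M + 1 - 3 * X ≤ M)
  calc _ ≤ (((Icc (3 * X) M).biUnion (fun n => Fintype.piFinset (fun _ : Fin K => Bd X n h'))).card : ℝ) := by
        exact_mod_cast card_le_card hsub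
    _ ≤ ∑ n ∈ Icc (3 * X) M, ((Fintype.piFinset (fun _ : Fin K => Bd X n h')).card : ℝ) := by
        exact_mod_cast card_biUnion_le
    _ ≤ ∑ n ∈ Icc (3 * X) M, (X : ℝ) ^ K * Real.exp (-((|B| + 2) * Real.log X)) := sum_le_sum h1
    _ = (Icc (3 * X) M).card * ((X : ℝ) ^ K * Real.exp (-((|B| + 2) * Real.log X))) := by rw [sum_const, nsmul_eq_mul]
    _ ≤ (X : ℝ) ^ (2 : ℝ) * ((X : ℝ) ^ K * Real.exp (-((|B| + 2) * Real.log X))) := by
        gcongr
        exact h3.trans h2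
    _ = (X : ℝ) ^ K * (X : ℝ) ^ (-|B|) := by
        have h4 : Real.exp (-((|B| + 2) * Real.log X)) = (X : ℝ) ^ (-(|B| + 2)) := by
          rw [Real.rpow_def_of_pos (by linarith)]
          congr 1
          ring
        rw [h4]
        have h5 : (X : ℝ) ^ (2 : ℝ) * (X : ℝ) ^ (-(|B| + 2)) = (X : ℝ) ^ (-|B|) := by
          rw [← Real.rpow_add (by linarith)]
          congr 1
          ring
        rw [← h5]
        ring
    _ ≤ _ := by
        gcongr
        · linarith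
        · exact le_abs_self B

end Pool.Agent.U497.RT
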